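import Mathlib

/-!
Note 2556 (helper58), THEOREM W2: `D2` holds at `x` when `dim (V_x / rad V_x) <= 2`.

`V`, `B` are elementary abelian `2`-groups, `q : V × V → B` bilinear alternating, `K = V_x`,
`Z = rad K`.  Only the planes through an element of `K - 0` are assumed to be linked.
The counting of the note is not needed: the pointwise form of (J1) is enough.
-/

set_option autoImplicit false

namespace Pool.Agent.ETCW2

variable {V B : Type} [AddCommGroup V] [Module (ZMod 2) V] [AddCommGroup B] [Module (ZMod 2) B]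

/-- the frame: `Z = rad K`, all `z` in `Z - 0` have centralizer `K`, the elements of `K - 0` are
linked with everything -/
structure Fr (q : V →ₗ[ZMod 2] V →ₗ[ZMod 2] B) (K Z : Submodule (ZMod 2) V) : Prop where
  alt : ∀ v, q v v = 0
  zle : Z ≤ K
  ann : ∀ z ∈ Z, z ≠ 0 → ∀ v, q z v = 0 ↔ v ∈ K
  link : ∀ k ∈ K, k ≠ 0 → ∀ w r s, q k r = q w s → ∃ y, q k y = q k r ∧ q w y = q k r

theorem two (b : B) : b + b = 0 := ZModModule.add_self b

theorem eo {a b : B} (h : a + b = 0) : a = b := by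
  have h1 : a + b + b = b := by rw [h, zero_add]
  rwa [add_assoc, two, add_zero] at h1

theorem oe {a b : B} (h : a = b) : a + b = 0 := by rw [h, two]

section
variable {q : V →ₗ[ZMod 2] V →ₗ[ZMod 2] B} {K Z : Submodule (ZMod 2) V}

theorem addl (q : V →ₗ[ZMod 2] V →ₗ[ZMod 2] B) (a b c : V) : q (a + b) c = q a c + q b c := by
  rw [map_add, LinearMap.add_apply]

theorem addr (q : V →ₗ[ZMod 2] V →ₗ[ZMod 2] B) (a b c : V) : q a (b + c) = q a b + q a c :=
  map_add _ _ _

theorem Fr.symm (F : Fr q K Z) (a b : V) : q a b = q b a := by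
  have h := F.alt (a + b)
  rw [addl, addr, addr, F.alt a, F.alt b, zero_add, add_zero] at h
  exact eo h

theorem Fr.zk (F : Fr q K Z) {z k : V} (hz : z ∈ Z) (hk : k ∈ K) : q z k = 0 := by
  by_cases h : z = 0
  · rw [h, map_zero, LinearMap.zero_apply]
  · exact (F.ann z hz h k).2 hk

theorem Fr.kz (F : Fr q K Z) {z k : V} (hz : z ∈ Z) (hk : k ∈ K) : q k z = 0 := by
  rw [F.symm]; exact F.zk hz hk

/-- `z v = z v'` iff `v + v' ∈ K` -/
theorem Fr.eqK (F : Fr q K Z) {z v v' : V} (hz : z ∈ Z) (h0 : z ≠ 0) :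
    q z v = q z v' ↔ v + v' ∈ K := by
  rw [← F.ann z hz h0, map_add]
  exact ⟨oe, eo⟩

/-- (U) -/
theorem Fr.uni (F : Fr q K Z) {z z' v v' : V} (hz : z ∈ Z) (hz' : z' ∈ Z) (h : q z v = q z' v')
    (h0 : q z v ≠ 0) : z = z' ∧ v + v' ∈ K := by
  have z0 : z ≠ 0 := by
    rintro rfl; exact h0 (by rw [map_zero, LinearMap.zero_apply])
  have e : z = z' := by
    by_contra hne
    obtain ⟨y, h1, h2⟩ := F.link z (F.zle hz) z0 z' v v' h
    have h3 : z + z' ≠ 0 := fun h => hne (eo h)
    have h4 : q (z + z') y = 0 := by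
      rw [map_add, LinearMap.add_apply, h1, h2, two]
    have h5 : y ∈ K := (F.ann _ (Z.add_mem hz hz') h3 y).1 h4
    exact h0 (by rw [← h1]; exact F.zk hz h5)
  subst e
  exact ⟨rfl, (F.eqK hz z0).1 h⟩

/-- `K = Z + <κ, l>`, `κ l ≠ 0` -/
structure Bs (q : V →ₗ[ZMod 2] V →ₗ[ZMod 2] B) (K Z : Submodule (ZMod 2) V) (κ l : V) : Prop where
  hκ : κ ∈ K
  hl : l ∈ K
  ne : q κ l ≠ 0
  gen : ∀ k ∈ K, (k ∈ Z ∨ k + κ ∈ Z) ∨ (k + l ∈ Z ∨ k + κ + l ∈ Z)

variable {κ l : V}

theorem Bs.nZ (F : Fr q K Z) (G : Bs q K Z κ l) : κ ∉ Z := fun h => G.ne (F.zk h G.hl)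

theorem Bs.shift (F : Fr q K Z) (G : Bs q K Z κ l) {z : V} (hz : z ∈ Z) : Bs q K Z (κ + z) l where
  hκ := K.add_mem G.hκ (F.zle hz)
  hl := G.hl
  ne := by rw [map_add, LinearMap.add_apply, F.zk hz G.hl, add_zero]; exact G.ne
  gen := by
    intro k hk
    have h1 : ∀ a : V, a ∈ Z → a + z ∈ Z := fun a ha => Z.add_mem ha hz
    rcases G.gen k hk with (h | h) | (h | h)
    · exact Or.inl (Or.inl h)
    · refine Or.inl (Or.inr ?_)
      have := h1 _ h
      rwa [add_assoc] at this
    · exact Or.inr (Or.inl h)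
    · refine Or.inr (Or.inr ?_)
      have := h1 _ h
      have e : k + (κ + z) + l = k + κ + l + z := by abel
      rwa [e]

theorem Bs.shiftl (F : Fr q K Z) (G : Bs q K Z κ l) {z : V} (hz : z ∈ Z) : Bs q K Z κ (l + z) where
  hκ := G.hκ
  hl := K.add_mem G.hl (F.zle hz)
  ne := by rw [map_add, F.kz hz G.hκ, add_zero]; exact G.ne
  gen := by
    intro k hk
    have h1 : ∀ a : V, a ∈ Z → a + z ∈ Z := fun a ha => Z.add_mem ha hz
    rcases G.gen k hk with (h | h) | (h | h)
    · exact Or.inl (Or.inl h)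
    · exact Or.inl (Or.inr h)
    · refine Or.inr (Or.inl ?_)
      have := h1 _ h
      rwa [add_assoc] at this
    · refine Or.inr (Or.inr ?_)
      have := h1 _ h
      rwa [add_assoc] at this

theorem Bs.swap (F : Fr q K Z) (G : Bs q K Z κ l) : Bs q K Z l κ where
  hκ := G.hl
  hl := G.hκ
  ne := by rw [F.symm]; exact G.ne
  gen := by
    intro k hk
    rcases G.gen k hk with (h | h) | (h | h)
    · exact Or.inl (Or.inl h)
    · exact Or.inr (Or.inl h)
    · exact Or.inl (Or.inr h)
    · refine Or.inr (Or.inr ?_)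
      have e : k + l + κ = k + κ + l := by abel
      rwa [e]

/-- the elements of `K` commuting with `κ` -/
theorem Bs.cen (F : Fr q K Z) (G : Bs q K Z κ l) {k : V} (hk : k ∈ K) (h : q κ k = 0) :
    k ∈ Z ∨ k + κ ∈ Z := by
  rcases G.gen k hk with h1 | (h1 | h1)
  · exact h1
  · exfalso
    have h2 := F.kz h1 G.hκ
    rw [map_add, h, zero_add] at h2
    exact G.ne h2
  · exfalso
    have h2 := F.kz h1 G.hκ
    rw [map_add, map_add, h, F.alt, zero_add, zero_add] at h2
    exact G.ne h2

/-- `q (K, K) = {0, t}` -/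
theorem Bs.qK (F : Fr q K Z) (G : Bs q K Z κ l) {k k' : V} (hk : k ∈ K) (hk' : k' ∈ K) :
    q k k' = 0 ∨ q k k' = q κ l := by
  have red : ∀ a z : V, ∀ b ∈ K, a + z ∈ Z → q a b = q z b := by
    intro a z b hb h
    have := F.zk h hb
    rw [map_add, LinearMap.add_apply] at this
    exact eo this
  have hκ' : q κ k' = 0 ∨ q κ k' = q κ l := by
    rw [F.symm κ k', F.symm κ l]
    rcases G.gen k' hk' with (h | h) | (h | h)
    · left; exact F.zk h G.hκ
    · left; rw [red _ _ κ G.hκ h, F.alt]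
    · right; rw [red _ _ κ G.hκ h]
    · right
      have e : k' + (κ + l) ∈ Z := by rw [← add_assoc]; exact h
      rw [red _ _ κ G.hκ e, map_add, LinearMap.add_apply, F.alt, zero_add]
  have hl' : q l k' = 0 ∨ q l k' = q κ l := by
    rw [F.symm l k']
    rcases G.gen k' hk' with (h | h) | (h | h)
    · left; exact F.zk h G.hl
    · right; rw [red _ _ l G.hl h]
    · left; rw [red _ _ l G.hl h, F.alt]
    · right
      have e : k' + (κ + l) ∈ Z := by rw [← add_assoc]; exact h
      rw [red _ _ l G.hl e, map_add, LinearMap.add_apply, F.alt, add_zero]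
  rcases G.gen k hk with (h | h) | (h | h)
  · left; exact F.zk h hk'
  · rw [red _ _ k' hk' h]; exact hκ'
  · rw [red _ _ k' hk' h]; exact hl'
  · have e : k + (κ + l) ∈ Z := by rw [← add_assoc]; exact h
    rw [red _ _ k' hk' e, map_add, LinearMap.add_apply]
    rcases hκ' with h1 | h1 <;> rcases hl' with h2 | h2 <;> rw [h1, h2]
    · left; rw [add_zero]
    · right; rw [zero_add]
    · right; rw [add_zero]
    · left; rw [two]

/-- the violating configuration: `κ v = 0`, `(κ + x) v' = 0`, `x v ≠ x v'` both nonzero;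
`hN`: the groups `q (x, V_u)`, `u ∈ K - Z`, have order at most two -/
structure Vi (q : V →ₗ[ZMod 2] V →ₗ[ZMod 2] B) (K Z : Submodule (ZMod 2) V) (κ l x v v' : V) :
    Prop where
  fr : Fr q K Z
  bs : Bs q K Z κ l
  hx : x ∈ Z
  x0 : x ≠ 0
  hN : ∀ u ∈ K, u ∉ Z → ∀ a b, q u a = 0 → q u b = 0 → a ∉ K → b ∉ K → a + b ∈ K
  hv : q κ v = 0
  hv' : q (κ + x) v' = 0
  nv : v ∉ K
  nv' : v' ∉ K
  nn : v + v' ∉ K

variable {x v v' : V}

theorem Vi.symm (H : Vi q K Z κ l x v v') : Vi q K Z (κ + x) l x v' v where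
  fr := H.fr
  bs := H.bs.shift H.fr H.hx
  hx := H.hx
  x0 := H.x0
  hN := H.hN
  hv := H.hv'
  hv' := by
    have e : κ + x + x = κ := by rw [add_assoc, ZModModule.add_self, add_zero]
    rw [e]; exact H.hv
  nv := H.nv'
  nv' := H.nv
  nn := by rw [add_comm]; exact H.nn

theorem Vi.shiftl (H : Vi q K Z κ l x v v') {z : V} (hz : z ∈ Z) : Vi q K Z κ (l + z) x v v' where
  fr := H.fr
  bs := H.bs.shiftl H.fr hz
  hx := H.hx
  x0 := H.x0
  hN := H.hN
  hv := H.hv
  hv' := H.hv'
  nv := H.nv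
  nv' := H.nv'
  nn := H.nn

/-- `κ v' = x v'` -/
theorem Vi.kv' (H : Vi q K Z κ l x v v') : q κ v' = q x v' := by
  have := H.hv'
  rw [map_add, LinearMap.add_apply] at this
  exact eo this

/-- (1), first half -/
theorem Vi.one' (H : Vi q K Z κ l x v v') {z r : V} (hz : z ∈ Z) (h : q z r = q κ l) :
    q z v = q κ l := by
  have F := H.fr
  have z0 : z ≠ 0 := by
    rintro rfl
    rw [map_zero, LinearMap.zero_apply] at h
    exact H.bs.ne h.symm
  have e1 : q (κ + z) l = q κ l := by
    rw [map_add, LinearMap.add_apply, F.zk hz H.bs.hl, add_zero]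
  obtain ⟨y, h1, h2⟩ := F.link z (F.zle hz) z0 (κ + z) r l (by rw [h, e1])
  have h3 : q κ y = 0 := by
    rw [map_add, LinearMap.add_apply, h1] at h2
    exact (add_eq_right (a := q κ y) (b := q z r)).1 h2
  have h4 : y ∉ K := by
    intro hy
    have := F.zk hz hy
    rw [h1, h] at this
    exact H.bs.ne this
  have h5 := H.hN κ H.bs.hκ (Bs.nZ F H.bs) y v h3 H.hv h4 H.nv
  have h6 := (F.eqK hz z0).2 h5
  rw [← h6, h1, h]

/-- (1) `t` is not in `Q_z` -/
theorem Vi.one (H : Vi q K Z κ l x v v') {z r : V} (hz : z ∈ Z) (h : q z r = q κ l) : False := by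
  have F := H.fr
  have h1 := H.one' hz h
  have h2 := H.symm.one' (r := r) hz (by
    rw [h, map_add, LinearMap.add_apply, F.zk H.hx H.bs.hl, add_zero])
  have e : q (κ + x) l = q κ l := by
    rw [map_add, LinearMap.add_apply, F.zk H.hx H.bs.hl, add_zero]
  have z0 : z ≠ 0 := by
    rintro rfl
    rw [map_zero, LinearMap.zero_apply] at h
    exact H.bs.ne h.symm
  exact H.nn ((F.eqK hz z0).1 (by rw [h1, h2, e]))

/-- (2) -/
theorem Vi.twoo (H : Vi q K Z κ l x v v') {k z a b : V} (hk : k ∈ K) (hz : z ∈ Z) (z0 : z ≠ 0)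
    (h1 : q k a = 0) (h2 : q (k + z) b = 0) (hb : b ∉ K) (hab : a + b ∈ K) : False := by
  have F := H.fr
  have h3 : q k (a + b) = q z b := by
    rw [map_add, h1, zero_add]
    rw [map_add, LinearMap.add_apply] at h2
    exact eo h2
  rcases H.bs.qK F hk hab with h4 | h4
  · exact hb ((F.ann z hz z0 b).1 (by rw [← h3, h4]))
  · exact H.one hz (by rw [← h3, h4])

/-- (3) -/
theorem Vi.three (H : Vi q K Z κ l x v v') {z : V} (hz : z ∈ Z)
    (h : q z v = q κ l + q x v') : False := by
  have F := H.fr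
  have z0 : z ≠ 0 := by
    rintro rfl
    rw [map_zero, LinearMap.zero_apply] at h
    exact H.one (z := x) (r := v') H.hx (eo h.symm).symm
  have k0 : κ ≠ 0 := by
    intro h0
    exact Bs.nZ F H.bs (by rw [h0]; exact Z.zero_mem)
  have e1 : q κ (l + v') = q z v := by rw [map_add, H.kv', h]
  obtain ⟨y, h1, h2⟩ := F.link κ H.bs.hκ k0 z (l + v') v e1
  rw [e1] at h1 h2
  have h3 : q (κ + z) y = 0 := by rw [map_add, LinearMap.add_apply, h1, h2, two]
  have h4 : y + v ∈ K := (F.eqK hz z0).1 h2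
  have h5 : y ∉ K := by
    intro hy
    have := K.add_mem hy h4
    rw [← add_assoc, ZModModule.add_self, zero_add] at this
    exact H.nv this
  exact H.twoo H.bs.hκ hz z0 H.hv h3 h5 (by rw [add_comm]; exact h4)

/-- one link of `(w, x + κ)`: `V_w` meets `l + V_{κ + x}` -/
theorem Vi.lk (H : Vi q K Z κ l x v v') {w : V} (hw : q κ w = q κ l) :
    ∃ a, q w a = 0 ∧ q (κ + x) (a + l) = 0 := by
  have F := H.fr
  have G := H.bs.shift F H.hx
  have k0 : κ + x ≠ 0 := by
    intro h0
    exact Bs.nZ F G (by rw [h0]; exact Z.zero_mem)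
  have e : q (κ + x) l = q κ l := by
    rw [map_add, LinearMap.add_apply, F.zk H.hx H.bs.hl, add_zero]
  obtain ⟨y, h1, h2⟩ := F.link (κ + x) G.hκ k0 w l κ (by rw [e, F.symm w κ, hw])
  refine ⟨y + κ, ?_, ?_⟩
  · rw [map_add, h2, F.symm w κ, hw, e, two]
  · have h3 : q (κ + x) κ = 0 := by
      rw [map_add, LinearMap.add_apply, F.alt, F.zk H.hx H.bs.hκ, add_zero]
    rw [map_add, map_add, h1, h3, add_zero, two]

/-- (J1), pointwise: if `e = x v'` is not in `w C` then `V_w` meets `l + C` (`C = Z + <κ>`) -/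
theorem Vi.j1 (H : Vi q K Z κ l x v v') {w : V} (hw : q κ w = q κ l)
    (he : ∀ c, (c ∈ Z ∨ c + κ ∈ Z) → q w c ≠ q x v') :
    ∃ a, q w a = 0 ∧ (a + l ∈ Z ∨ a + l + κ ∈ Z) := by
  have F := H.fr
  have G := H.bs.shift F H.hx
  have ex : q κ x = 0 := F.kz H.hx H.bs.hκ
  -- the elements of `K` killed by `κ + x`
  have cen : ∀ k ∈ K, q (κ + x) k = 0 → (k ∈ Z ∨ k + κ ∈ Z) := by
    intro k hk h
    refine H.bs.cen F hk ?_
    rwa [map_add, LinearMap.add_apply, F.zk H.hx hk, add_zero] at h
  obtain ⟨a, h1, h2⟩ := H.lk hw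
  by_cases ha : a + l ∈ K
  · exact ⟨a, h1, cen _ ha h2⟩
  obtain ⟨b, h3, h4⟩ := H.lk (w := w + x) (by rw [map_add, ex, add_zero, hw])
  rw [map_add, LinearMap.add_apply] at h3
  by_cases hb : b + l ∈ K
  · have hb' : b ∈ K := by
      have := K.add_mem hb H.bs.hl
      rwa [add_assoc, ZModModule.add_self, add_zero] at this
    rw [F.zk H.hx hb', add_zero] at h3
    exact ⟨b, h3, cen _ hb h4⟩
  exfalso
  have nκ : κ + x ∉ Z := Bs.nZ F G
  have h5 := H.hN (κ + x) G.hκ nκ (b + l) v' h4 H.hv' hb H.nv'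
  have h6 := H.hN (κ + x) G.hκ nκ (a + l) (b + l) h2 h4 ha hb
  have h7 : a + l + (b + l) = a + b := by
    have : a + l + (b + l) = a + b + (l + l) := by abel
    rw [this, ZModModule.add_self, add_zero]
  have h8 : q (κ + x) (a + b) = 0 := by rw [← h7, map_add, h2, h4, add_zero]
  rw [h7] at h6
  have h9 : q x b = q x v' := by
    have := (F.eqK H.hx H.x0).2 h5
    rwa [map_add, F.zk H.hx H.bs.hl, add_zero] at this
  refine he (a + b) (cen _ h6 h8) ?_
  rw [map_add, h1, zero_add, eo h3, h9]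

/-- (4): an element `y` of `v + C` commuting with `κ` and with `l + z`, some `z ∈ Z` -/
theorem Vi.four (H : Vi q K Z κ l x v v') :
    ∃ z ∈ Z, ∃ y, q κ y = 0 ∧ q (l + z) y = 0 ∧ y + v ∈ K := by
  have F := H.fr
  have kC : ∀ c, (c ∈ Z ∨ c + κ ∈ Z) → c ∈ K := by
    rintro c (h | h)
    · exact F.zle h
    · have := K.add_mem (F.zle h) H.bs.hκ
      rwa [add_assoc, ZModModule.add_self, add_zero] at this
  -- `w = l + v + c`
  have key : ∀ c, (c = 0 ∨ c = κ) → ∃ d, (d ∈ Z ∨ d + κ ∈ Z) ∧ q (l + v + c) (l + d) = 0 := by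
    intro c hc
    have hcκ : q κ c = 0 := by
      rcases hc with rfl | rfl
      · rw [map_zero]
      · exact F.alt _
    have hcz : ∀ z ∈ Z, q c z = 0 := by
      intro z hz
      rcases hc with rfl | rfl
      · rw [map_zero, LinearMap.zero_apply]
      · exact F.kz hz H.bs.hκ
    have hw : q κ (l + v + c) = q κ l := by
      rw [map_add, map_add, H.hv, hcκ, add_zero, add_zero]
    have h1 : ∀ d, (d ∈ Z ∨ d + κ ∈ Z) → q (l + v + c) d ≠ q x v' := by
      intro d hd h
      rw [map_add, map_add, LinearMap.add_apply, LinearMap.add_apply] at h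
      rcases hd with hd | hd
      · rw [F.kz hd H.bs.hl, hcz d hd, zero_add, add_zero] at h
        have h0 : q d v ≠ 0 := by
          rw [F.symm, h]
          intro h0
          exact H.nv' ((F.ann x H.hx H.x0 v').1 h0)
        have h2 := F.uni hd H.hx (by rw [F.symm d v, h]) h0
        exact H.nn h2.2
      · -- `d = z + κ`
        have e : d = (d + κ) + κ := by rw [add_assoc, ZModModule.add_self, add_zero]
        have e1 : q l d = q κ l := by
          rw [e, map_add, F.kz hd H.bs.hl, zero_add, F.symm]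
        have e2 : q c d = 0 := by
          rw [e, map_add, hcz _ hd, zero_add, F.symm]; exact hcκ
        have e3 : q v d = q (d + κ) v := by
          conv_lhs => rw [e]
          rw [map_add, F.symm v κ, H.hv, add_zero, F.symm]
        rw [e1, e2, e3, add_zero] at h
        refine H.three hd ?_
        have : q (d + κ) v = q κ l + (q κ l + q (d + κ) v) := by
          rw [← add_assoc, two, zero_add]
        rw [this, h]
    obtain ⟨a, h2, h3⟩ := H.j1 hw h1
    refine ⟨a + l, h3, ?_⟩
    have e : l + (a + l) = a := by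
      have : l + (a + l) = a + (l + l) := by abel
      rw [this, ZModModule.add_self, add_zero]
    rw [e]; exact h2
  obtain ⟨d, hd, h1⟩ := key 0 (Or.inl rfl)
  obtain ⟨d', hd', h2⟩ := key κ (Or.inr rfl)
  rw [add_zero] at h1
  have cz : ∀ d, (d ∈ Z ∨ d + κ ∈ Z) → q κ d = 0 := by
    rintro d (h | h)
    · exact F.kz h H.bs.hκ
    · have := F.kz h H.bs.hκ
      rwa [map_add, F.alt, add_zero] at this
  have lz : ∀ d, (d ∈ Z ∨ d + κ ∈ Z) → q l d = 0 ∨ q l d = q κ l := by
    intro d hd
    exact H.bs.qK F H.bs.hl (kC d hd)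
  -- `(l + d)` commutes with `v` or `v + κ`
  have fin : ∀ d, (d ∈ Z ∨ d + κ ∈ Z) → (q v (l + d) = 0 ∨ q v (l + d) = q κ l) →
      ∃ y, q κ y = 0 ∧ q (l + d) y = 0 ∧ y + v ∈ K := by
    intro d hd h
    rcases h with h | h
    · exact ⟨v, H.hv, by rw [F.symm]; exact h, by rw [ZModModule.add_self]; exact K.zero_mem⟩
    · refine ⟨v + κ, by rw [map_add, H.hv, F.alt, add_zero], ?_, ?_⟩
      · rw [map_add, F.symm (l + d) v, h, F.symm (l + d) κ, map_add, cz d hd, add_zero, two]
      · have : v + κ + v = κ + (v + v) := by abel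
        rw [this, ZModModule.add_self, add_zero]; exact H.bs.hκ
  have v1 : q v (l + d) = 0 ∨ q v (l + d) = q κ l := by
    have e : q (l + v) (l + d) = q l d + q v (l + d) := by
      rw [addl, addr q l, F.alt, zero_add]
    rw [e] at h1
    rw [← eo h1]; exact lz d hd
  have v2 : q v (l + d') = 0 ∨ q v (l + d') = q κ l := by
    have e : q (l + v + κ) (l + d') = q l d' + q v (l + d') + q κ l := by
      rw [addl, addl, addr q l, F.alt, zero_add, addr q κ, cz d' hd', add_zero]
    rw [e] at h2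
    have h3 := eo h2
    rcases lz d' hd' with h4 | h4
    · right; rw [h4, zero_add] at h3; exact h3
    · left; rw [h4] at h3; exact add_eq_left.1 h3
  rcases hd with hd | hd
  · obtain ⟨y, h3⟩ := fin d (Or.inl hd) v1
    exact ⟨d, hd, y, h3⟩
  rcases hd' with hd' | hd'
  · obtain ⟨y, h3⟩ := fin d' (Or.inl hd') v2
    exact ⟨d', hd', y, h3⟩
  exfalso
  have hz : d + d' ∈ Z := by
    have := Z.add_mem hd hd'
    have e : d + κ + (d' + κ) = d + d' + (κ + κ) := by abel
    rwa [e, ZModModule.add_self, add_zero] at this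
  by_cases h0 : d + d' = 0
  · have e : d' = d := (eo (a := d) (b := d') h0).symm
    rw [e] at h2
    have e2 : q (l + v + κ) (l + d) = q (l + v) (l + d) + q κ l := by
      rw [addl, addr q κ, cz d (Or.inr hd), add_zero]
    rw [e2, h1, zero_add] at h2
    exact H.bs.ne h2
  · obtain ⟨y, -, h4, h5⟩ := fin d (Or.inr hd) v1
    obtain ⟨y', -, h7, h8⟩ := fin d' (Or.inr hd') v2
    have hy' : y' ∉ K := by
      intro h
      have := K.add_mem h h8
      rw [← add_assoc, ZModModule.add_self, zero_add] at this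
      exact H.nv this
    have e : l + d + (d + d') = l + d' := by
      have : l + d + (d + d') = l + d' + (d + d) := by abel
      rw [this, ZModModule.add_self, add_zero]
    have hyy : y + y' ∈ K := by
      have := K.add_mem h5 h8
      have e : y + v + (y' + v) = y + y' + (v + v) := by abel
      rwa [e, ZModModule.add_self, add_zero] at this
    exact H.twoo (K.add_mem H.bs.hl (kC d (Or.inr hd))) hz h0 h4 (by rw [e]; exact h7) hy' hyy

/-- (5), pointwise -/
theorem Vi.five (H : Vi q K Z κ l x v v') {x₀ κ l y y' : V} (hx₀ : x₀ ∈ Z) (x₀0 : x₀ ≠ 0)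
    (G : Bs q K Z κ l) (ht : ∀ z ∈ Z, ∀ r, q z r ≠ q κ l) (hy : q κ y = 0)
    (hy' : q (κ + x₀) y' = 0) (ny : y ∉ K) (ny' : y' ∉ K) (nyy : y + y' ∉ K)
    (hZ : ∀ z ∈ Z, ∃ z' ∈ Z, z' ≠ z ∧ z' ≠ z + x₀) :
    ∃ z ∈ Z, q κ l = q z y + q (z + x₀) y' := by
  have F := H.fr
  by_contra hno
  push Not at hno
  have κy' : q κ y' = q x₀ y' := by
    rw [addl] at hy'; exact eo hy'
  have kC : ∀ c, (c ∈ Z ∨ c + κ ∈ Z) → c ∈ K := by
    rintro c (h | h)
    · exact F.zle h
    · have := K.add_mem (F.zle h) G.hκ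
      rwa [add_assoc, ZModModule.add_self, add_zero] at this
  have κC : ∀ c, (c ∈ Z ∨ c + κ ∈ Z) → q κ c = 0 := by
    rintro c (h | h)
    · exact F.kz h G.hκ
    · have := F.kz h G.hκ
      rwa [addr, F.alt, add_zero] at this
  have CC : ∀ c c', c ∈ Z → (c' ∈ Z ∨ c' + κ ∈ Z) → q c c' = 0 := by
    intro c c' h h'
    exact F.zk h (kC c' h')
  -- `t` is not in `w C`
  have nt : ∀ c ∈ Z, ∀ d, (d ∈ Z ∨ d + κ ∈ Z) → q (y + y' + c) d ≠ q κ l := by
    intro c hc d hd h
    rw [addl, CC c d hc hd, add_zero] at h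
    rcases hd with hd | hd
    · exact ht d hd (y + y') (by rw [F.symm]; exact h)
    · have e : d = (d + κ) + κ := by rw [add_assoc, ZModModule.add_self, add_zero]
      rw [e, addr, F.symm (y + y') κ, addr q κ, hy, zero_add, κy', F.symm (y + y'), addr,
        add_assoc, ← addl] at h
      exact hno (d + κ) hd h.symm
  have lk : ∀ w, q w (κ + x₀) = q x₀ y → ∃ a, q w a = 0 ∧ a + y ∈ K := by
    intro w hw
    obtain ⟨r, h1, h2⟩ := F.link x₀ (F.zle hx₀) x₀0 w y (κ + x₀) hw.symm
    refine ⟨r + (κ + x₀), by rw [addr, h2, hw, two], ?_⟩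
    have h3 := (F.eqK hx₀ x₀0).1 h1
    have e : r + (κ + x₀) + y = r + y + (κ + x₀) := by abel
    rw [e]
    exact K.add_mem h3 (K.add_mem G.hκ (F.zle hx₀))
  -- `V_w` meets `y + C`
  have key : ∀ c ∈ Z, ∃ d, (d ∈ Z ∨ d + κ ∈ Z) ∧ q (y + y' + c) (y + d) = 0 := by
    intro c hc
    have w1 : q (y + y' + c) (κ + x₀) = q x₀ y := by
      rw [addl, F.zk hc (K.add_mem G.hκ (F.zle hx₀)), add_zero, F.symm, addl, addr q κ, hy,
        zero_add, κy', addr q x₀, ← add_assoc, add_comm (q x₀ y'), add_assoc, two, add_zero]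
    have w2 : q (y + y' + c + κ) (κ + x₀) = q x₀ y := by
      rw [addl, w1, addr, F.alt, F.kz hx₀ G.hκ, add_zero, add_zero]
    obtain ⟨a, h1, h2⟩ := lk _ w1
    obtain ⟨b, h3, h4⟩ := lk _ w2
    have back : ∀ a, y + (a + y) = a := by
      intro a
      have : y + (a + y) = a + (y + y) := by abel
      rw [this, ZModModule.add_self, add_zero]
    -- an element of `K` is in `C` iff it commutes with `κ`
    by_cases ha : q κ (a + y) = 0
    · exact ⟨a + y, G.cen F h2 ha, by rw [back]; exact h1⟩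
    by_cases hb : q κ (b + y) = 0
    · refine ⟨b + y, G.cen F h4 hb, ?_⟩
      rw [back]
      rw [addl] at h3
      rw [addr, hy, add_zero] at hb
      rwa [hb, add_zero] at h3
    exfalso
    have ha' := (G.qK F G.hκ h2).resolve_left ha
    have hb' := (G.qK F G.hκ h4).resolve_left hb
    have hab : a + y + (b + y) = a + b := by
      have : a + y + (b + y) = a + b + (y + y) := by abel
      rw [this, ZModModule.add_self, add_zero]
    have h5 : q κ (a + b) = 0 := by rw [← hab, addr, ha', hb', two]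
    have h6 : a + b ∈ K := by rw [← hab]; exact K.add_mem h2 h4
    refine nt c hc (a + b) (G.cen F h6 h5) ?_
    rw [addr, h1, zero_add]
    rw [addl] at h3
    rw [eo h3]
    rw [addr, hy, add_zero] at hb'
    exact hb'
  -- the values
  have val : ∀ c ∈ Z, ∃ a ∈ Z, ∃ b ∈ Z, (a = c + b ∨ a = c + b + x₀) ∧
      q y' y = q a y + q b y' := by
    intro c hc
    obtain ⟨d, hd, h⟩ := key c hc
    rcases hd with hd | hd
    · refine ⟨c + d, Z.add_mem hc hd, d, hd, Or.inl rfl, ?_⟩
      rw [addl, addl, addr, addr, addr, F.alt, F.zk hc (F.zle hd), zero_add, add_zero] at h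
      rw [addl, F.symm d y, F.symm d y']
      refine eo ?_
      rw [← h]; abel
    · obtain ⟨m, hm, rfl⟩ : ∃ m ∈ Z, d = m + κ :=
        ⟨d + κ, hd, by rw [add_assoc, ZModModule.add_self, add_zero]⟩
      refine ⟨c + m, Z.add_mem hc hm, m + x₀, Z.add_mem hm hx₀, Or.inr ?_, ?_⟩
      · have : c + (m + x₀) + x₀ = c + m + (x₀ + x₀) := by abel
        rw [this, ZModModule.add_self, add_zero]
      · rw [addl, addl, addr q y, addr q y', addr q c, addr q y, addr q y', F.alt,
          F.zk hc (K.add_mem (F.zle hm) G.hκ), F.symm y κ, hy, F.symm y' κ, κy', zero_add, add_zero,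
          add_zero] at h
        rw [addl, addl q m, F.symm m y, F.symm m y']
        refine eo ?_
        rw [← h]; abel
  -- uniqueness
  have uni : ∀ a ∈ Z, ∀ b ∈ Z, ∀ a' ∈ Z, ∀ b' ∈ Z, q a y + q b y' = q a' y + q b' y' →
      a = a' ∧ b = b' := by
    intro a ha b hb a' ha' b' hb' h
    have h1 : q (a + a') y = q (b + b') y' := by
      rw [addl, addl]
      refine eo ?_
      have := oe h
      rw [← this]; abel
    by_cases h0 : q (a + a') y = 0
    · rw [h0] at h1
      constructor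
      · by_contra hne
        exact ny ((F.ann (a + a') (Z.add_mem ha ha') (fun h => hne (eo h)) y).1 h0)
      · by_contra hne
        exact ny' ((F.ann (b + b') (Z.add_mem hb hb') (fun h => hne (eo h)) y').1 h1.symm)
    · exact absurd (F.uni (Z.add_mem ha ha') (Z.add_mem hb hb') h1 h0).2 nyy
  obtain ⟨a, ha, b, hb, -, h1⟩ := val 0 Z.zero_mem
  obtain ⟨c, hc, hc1, hc2⟩ := hZ (a + b) (Z.add_mem ha hb)
  obtain ⟨a', ha', b', hb', h2, h3⟩ := val c hc
  obtain ⟨rfl, rfl⟩ := uni a ha b hb a' ha' b' hb' (by rw [← h1, ← h3])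
  rcases h2 with h2 | h2
  · refine hc1 ?_
    rw [h2, add_assoc, ZModModule.add_self, add_zero]
  · refine hc2 ?_
    rw [h2]
    have : c + b + x₀ + b + x₀ = c + (b + b) + (x₀ + x₀) := by abel
    rw [this, ZModModule.add_self, ZModModule.add_self, add_zero, add_zero]

/-- the violating configuration is impossible -/
theorem Vi.false (H : Vi q K Z κ l x v v') : False := by
  have F := H.fr
  obtain ⟨z₁, hz₁, y, y1, y2, y3⟩ := H.four
  have H2 := H.shiftl hz₁
  obtain ⟨z₀, hz₀, y', y1', y2', y3'⟩ := H2.symm.four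
  set l' := l + z₁ with hl'
  have ny : y ∉ K := by
    intro h
    have := K.add_mem h y3
    rw [← add_assoc, ZModModule.add_self, zero_add] at this
    exact H.nv this
  have ny' : y' ∉ K := by
    intro h
    have := K.add_mem h y3'
    rw [← add_assoc, ZModModule.add_self, zero_add] at this
    exact H.nv' this
  have nyy : y + y' ∉ K := by
    intro h
    have := K.add_mem h (K.add_mem y3 y3')
    have e : y + y' + (y + v + (y' + v')) = v + v' + (y + y) + (y' + y') := by abel
    rw [e, ZModModule.add_self, ZModModule.add_self, add_zero, add_zero] at this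
    exact H.nn this
  have G := H2.bs
  have ht : ∀ z ∈ Z, ∀ r, q z r ≠ q κ l' := fun z hz r h => H2.one hz h
  have nl : l' ∉ Z := Bs.nZ F (G.swap F)
  have nκl : κ + l' ∉ Z := by
    intro h
    have := F.zk h G.hl
    rw [addl, F.alt, add_zero] at this
    exact G.ne this
  -- `z₀ ≠ 0`
  have z0 : z₀ ≠ 0 := by
    rintro rfl
    rw [add_zero] at y2'
    exact nyy (H.hN l' G.hl nl y y' y2 y2' ny ny')
  have zx : z₀ ≠ x := by
    rintro rfl
    have h1 : q (κ + l') y = 0 := by rw [addl, y1, y2, add_zero]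
    have h2 : q (κ + l') y' = 0 := by
      have := congrArg₂ (· + ·) y1' y2'
      simp only [addl, add_zero] at this
      rw [addl, ← this]
      have e : q κ y' + q z₀ y' + (q l' y' + q z₀ y') = q κ y' + q l' y' + (q z₀ y' + q z₀ y') := by
        abel
      rw [e, two, add_zero]
    exact nyy (H.hN (κ + l') (K.add_mem G.hκ G.hl) nκl y y' h1 h2 ny ny')
  have hZ : ∀ u, (u = x ∨ u = z₀) → ∀ z ∈ Z, ∃ z' ∈ Z, z' ≠ z ∧ z' ≠ z + u := by
    intro u hu z hz
    rcases hu with rfl | rfl
    · refine ⟨z + z₀, Z.add_mem hz hz₀, fun h => z0 (add_eq_left.1 h), fun h => zx ?_⟩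
      exact add_left_cancel h
    · refine ⟨z + x, Z.add_mem hz H.hx, fun h => H.x0 (add_eq_left.1 h), fun h => zx ?_⟩
      exact (add_left_cancel h).symm
  obtain ⟨z, hz, e1⟩ := H.five H.hx H.x0 G ht y1 y1' ny ny' nyy (hZ x (Or.inl rfl))
  obtain ⟨z', hz', e2⟩ := H.five hz₀ z0 (G.swap F)
    (by intro z hz r h; rw [F.symm l' κ] at h; exact ht z hz r h) y2 y2' ny ny' nyy
    (hZ z₀ (Or.inr rfl))
  rw [F.symm l' κ] at e2
  have h1 : q (z + z') y = q (z + x + (z' + z₀)) y' := by
    rw [addl, addl q (z + x)]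
    refine eo ?_
    have := oe (e1.symm.trans e2)
    rw [← this]; abel
  have m1 := Z.add_mem hz hz'
  have m2 := Z.add_mem (Z.add_mem hz H.hx) (Z.add_mem hz' hz₀)
  by_cases h0 : q (z + z') y = 0
  · rw [h0] at h1
    have e3 : z + z' = 0 := by
      by_contra hne
      exact ny ((F.ann _ m1 hne y).1 h0)
    have e4 : z + x + (z' + z₀) = 0 := by
      by_contra hne
      exact ny' ((F.ann _ m2 hne y').1 h1.symm)
    have e5 : z + x + (z' + z₀) = z + z' + (x + z₀) := by abel
    rw [e5, e3, zero_add] at e4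
    exact zx (eo e4).symm
  · exact nyy (F.uni m1 m2 h1 h0).2

end

section final
variable (q : V →ₗ[ZMod 2] V →ₗ[ZMod 2] B) (x : V)

/-- `V_x` -/
def Kx : Submodule (ZMod 2) V := LinearMap.ker (q x)

/-- `rad V_x` -/
def Zx : Submodule (ZMod 2) V where
  carrier := {z | q x z = 0 ∧ ∀ k, q x k = 0 → q z k = 0}
  zero_mem' := ⟨map_zero _, fun k _ => by rw [map_zero, LinearMap.zero_apply]⟩
  add_mem' := by
    rintro a b ⟨h1, h2⟩ ⟨h3, h4⟩
    exact ⟨by rw [map_add, h1, h3, add_zero], fun k hk => by rw [addl, h2 k hk, h4 k hk, add_zero]⟩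
  smul_mem' := by
    rintro c a ⟨h1, h2⟩
    exact ⟨by rw [map_smul, h1, smul_zero],
      fun k hk => by rw [map_smul, LinearMap.smul_apply, h2 k hk, smul_zero]⟩

theorem z2 (c : ZMod 2) : c = 0 ∨ c = 1 := by revert c; decide

variable {q x}

/-- **THEOREM W2** (helper58, note 2556).  `V` finite, `q` alternating bilinear, `x` in `V`; the
elements `k` of `V_x - 0` are linked with all elements and `|V_k| ≤ |V_x|`; `V_x / rad V_x` has
order at most `4`.  Then `D2` holds at `x`. -/
theorem W2 [Finite V] (alt : ∀ v, q v v = 0)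
    (link : ∀ k, k ≠ 0 → q x k = 0 → ∀ w r s, q k r = q w s → ∃ y, q k y = q k r ∧ q w y = q k r)
    (mr : ∀ k, k ≠ 0 → q x k = 0 → Nat.card (Kx q k) ≤ Nat.card (Kx q x))
    (four : Nat.card (Kx q x) ≤ 4 * Nat.card (Zx q x))
    {κ v v' : V} (hκ : q x κ = 0) (hv : q κ v = 0) (hv' : q (κ + x) v' = 0)
    (nv : q x v ≠ 0) (nv' : q x v' ≠ 0) : q x v = q x v' := by
  by_contra nn
  have memK : ∀ k v, v ∈ Kx q k ↔ q k v = 0 := fun k v => LinearMap.mem_ker
  have x0 : x ≠ 0 := by
    rintro rfl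
    exact nv (by rw [map_zero, LinearMap.zero_apply])
  have xx : x ∈ Zx q x := ⟨alt x, fun k hk => hk⟩
  have F : Fr q (Kx q x) (Zx q x) :=
    { alt := alt
      zle := fun z hz => (memK _ _).2 hz.1
      ann := by
        intro z hz z0 v
        have hle : Kx q x ≤ Kx q z := fun k hk => (memK _ _).2 (hz.2 k ((memK _ _).1 hk))
        have he : Kx q x = Kx q z := by
          refine SetLike.coe_injective (Set.eq_of_subset_of_ncard_le hle ?_ (Set.toFinite _))
          exact mr z z0 hz.1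
        rw [he]; exact (memK _ _).symm
      link := fun k hk k0 w r s h => link k k0 ((memK _ _).1 hk) w r s h }
  have kK : κ ∈ Kx q x := (memK _ _).2 hκ
  have nK : v ∉ Kx q x := fun h => nv ((memK _ _).1 h)
  have nK' : v' ∉ Kx q x := fun h => nv' ((memK _ _).1 h)
  have nnK : v + v' ∉ Kx q x := fun h => nn (eo (by rw [← map_add]; exact (memK _ _).1 h))
  have κZ : κ ∉ Zx q x := by
    intro h
    have κ0 : κ ≠ 0 := by
      rintro rfl
      rw [zero_add] at hv'
      exact nv' hv'
    exact nK ((F.ann κ h κ0 v).1 hv)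
  obtain ⟨l, hl, ne⟩ : ∃ l, l ∈ Kx q x ∧ q κ l ≠ 0 := by
    by_contra hno
    push Not at hno
    exact κZ ⟨hκ, fun k hk => hno k ((memK _ _).2 hk)⟩
  have zpos : 0 < Nat.card (Zx q x) := Nat.card_pos
  -- generation of `K`
  have gen : ∀ k ∈ Kx q x, ∃ z ∈ Zx q x, ∃ a b : ZMod 2, k = z + (a • κ + b • l) := by
    let f : (Zx q x × (ZMod 2 × ZMod 2)) → Kx q x := fun p =>
      ⟨p.1 + (p.2.1 • κ + p.2.2 • l), (Kx q x).add_mem (F.zle p.1.2)
        ((Kx q x).add_mem ((Kx q x).smul_mem _ kK) ((Kx q x).smul_mem _ hl))⟩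
    have inj : Function.Injective f := by
      rintro ⟨z, a, b⟩ ⟨z', a', b'⟩ h
      have h1 : (z : V) + (a • κ + b • l) = z' + (a' • κ + b' • l) := congrArg Subtype.val h
      have h2 := congrArg (q κ) h1
      have h3 := congrArg (q l) h1
      simp only [map_add, map_smul, F.kz z.2 kK, F.kz z'.2 kK, F.kz z.2 hl, F.kz z'.2 hl, alt,
        smul_zero, zero_add, add_zero] at h2 h3
      have e1 : b = b' := smul_left_injective (ZMod 2) ne h2
      have e2 : a = a' := smul_left_injective (ZMod 2) (by rw [F.symm]; exact ne) h3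
      subst e1 e2
      have e3 : z = z' := Subtype.ext (add_right_cancel h1)
      rw [e3]
    have bij := inj.bijective_of_nat_card_le (by
      rw [Nat.card_prod, Nat.card_prod, Nat.card_zmod]; omega)
    intro k hk
    obtain ⟨⟨z, a, b⟩, h⟩ := bij.2 ⟨k, hk⟩
    exact ⟨z, z.2, a, b, (congrArg Subtype.val h).symm⟩
  have G : Bs q (Kx q x) (Zx q x) κ l :=
    { hκ := kK
      hl := hl
      ne := ne
      gen := by
        intro k hk
        obtain ⟨z, hz, a, b, rfl⟩ := gen k hk
        rcases z2 a with rfl | rfl <;> rcases z2 b with rfl | rfl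
        · left; left
          rw [zero_smul, zero_smul, add_zero, add_zero]; exact hz
        · right; left
          rw [zero_smul, one_smul, zero_add, add_assoc, ZModModule.add_self, add_zero]; exact hz
        · left; right
          rw [zero_smul, one_smul, add_zero, add_assoc, ZModModule.add_self, add_zero]; exact hz
        · right; right
          have : z + ((1 : ZMod 2) • κ + (1 : ZMod 2) • l) + κ + l = z + (κ + κ) + (l + l) := by
            rw [one_smul, one_smul]; abel
          rw [this, ZModModule.add_self, ZModModule.add_self, add_zero, add_zero]; exact hz }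
  have hN : ∀ u ∈ Kx q x, u ∉ Zx q x → ∀ a b, q u a = 0 → q u b = 0 → a ∉ Kx q x → b ∉ Kx q x →
      a + b ∈ Kx q x := by
    intro u hu huZ a b ha hb na nb
    by_contra nab
    have u0 : u ≠ 0 := by
      rintro rfl; exact huZ (Zx q x).zero_mem
    let f : (Zx q x × (ZMod 2 × (ZMod 2 × ZMod 2))) → Kx q u := fun p =>
      ⟨p.1 + (p.2.1 • u + (p.2.2.1 • a + p.2.2.2 • b)), (memK _ _).2 (by
        rw [map_add, map_add, map_add, map_smul, map_smul, map_smul, ha, hb, alt,
          F.kz p.1.2 hu]; simp)⟩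
    have inj : Function.Injective f := by
      rintro ⟨z, i, j, k⟩ ⟨z', i', j', k'⟩ h
      have h1 : (z : V) + (i • u + (j • a + k • b)) = z' + (i' • u + (j' • a + k' • b)) :=
        congrArg Subtype.val h
      have h2 := congrArg (q x) h1
      have xu : q x u = 0 := (memK _ _).1 hu
      simp only [map_add, map_smul, z.2.1, z'.2.1, xu, smul_zero, zero_add] at h2
      have na' : q x a ≠ 0 := fun h => na ((memK _ _).2 h)
      have nb' : q x b ≠ 0 := fun h => nb ((memK _ _).2 h)
      have nab' : q x a + q x b ≠ 0 := fun h => nab ((memK _ _).2 (by rw [map_add]; exact h))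
      have e0 : (j - j') • q x a + (k - k') • q x b = 0 := by
        rw [sub_smul, sub_smul]
        have : j • q x a - j' • q x a + (k • q x b - k' • q x b) =
          (j • q x a + k • q x b) - (j' • q x a + k' • q x b) := by abel
        rw [this, h2, sub_self]
      have e1 : j = j' ∧ k = k' := by
        rcases z2 (j - j') with h | h <;> rcases z2 (k - k') with h' | h' <;>
          rw [h, h'] at e0 <;> simp only [zero_smul, one_smul, zero_add, add_zero] at e0
        · exact ⟨sub_eq_zero.1 h, sub_eq_zero.1 h'⟩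
        · exact absurd e0 nb'
        · exact absurd e0 na'
        · exact absurd e0 nab'
      obtain ⟨rfl, rfl⟩ := e1
      rw [← add_assoc (z : V), ← add_assoc (z' : V)] at h1
      have h4 := add_right_cancel h1
      have e2 : i = i' := by
        by_contra hne
        refine huZ ?_
        have h5 : (i - i') • u = z' - z := by
          rw [sub_smul]
          have : i • u - i' • u = ((z : V) + i • u) - (z' + i' • u) + (z' - z) := by abel
          rw [this, h4, sub_self, zero_add]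
        rcases z2 (i - i') with h6 | h6
        · exact absurd (sub_eq_zero.1 h6) hne
        · rw [h6, one_smul] at h5
          rw [h5]
          exact (Zx q x).sub_mem z'.2 z.2
      subst e2
      have e3 : z = z' := Subtype.ext (add_right_cancel h4)
      rw [e3]
    have hc := Nat.card_le_card_of_injective f inj
    rw [Nat.card_prod, Nat.card_prod, Nat.card_prod, Nat.card_zmod] at hc
    have := mr u u0 ((memK _ _).1 hu)
    omega
  exact Vi.false (κ := κ) (l := l) (x := x) (v := v) (v' := v')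
    { fr := F, bs := G, hx := xx, x0 := x0, hN := hN, hv := hv, hv' := hv', nv := nK, nv' := nK',
      nn := nnK }

end final

end Pool.Agent.ETCW2
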